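import Pool.Agent.SKS.IterMain

/-!
# No weakly universal colouring of pairs of countable ordinals in the Sacks model

The ground model is the universe of Lean, in which CH is assumed, as in the definition of the
Sacks model. `W2` is the well-order of all ordinals below `ω₂` and `O1` the set of all
ordinals below `ω₁`. The countable support iteration of length `ω₂` of Sacks forcing is the set
`Cond W2` of the projection keeping self-maps of the space of all sequences `(x_j)` of reals
indexed by `W2`, ordered by inclusion of ranges (the usual geometric form of the iteration), and
`BA W2` is its complete Boolean algebra of regular down sets.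

* `IsSacksIteration W2` says in terms of names and conditions that `Cond W2` is the countable
  support iteration of Sacks forcing: for an initial segment `S` let `Q_S` be the conditions
  supported in `S`. Restriction to `S` is a projection onto `Q_S`; `Q_∅` is trivial; `Q_(≤β)` is a
  dense part of `Q_(<β)` followed by the set of perfect trees of the extension ordered by
  inclusion; at limits of countable cofinality `Q_S`, with its order, is dense in the full inverse
  limit, and at limits of uncountable cofinality it is the union.
* `noSurj (BA W2) ℕ O1 = ⊤`: `ω₁` is preserved, so that `O1` is the set of all countable ordinals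
  of the extension.
* A name of a function on the unordered pairs of elements of `O1` is a `Fun (BA W2) (Sym2 O1) ℕ`
  (the values on the diagonal are ignored). The Boolean value of: there is a `(1, ω)`-weakly
  universal function, is `0`, and also that of: there is a `(1, 2)`-weakly universal function.
-/

namespace Pool.Agent.Results.MP_504954_lc.SacksModel

open SKS CpB Cardinal

/-- Assume CH. The conditions `Cond W2` form a countable support iteration of Sacks forcing of
length `ω₂`, the iteration preserves `ω₁`, and in the Boolean valued universe of its complete Boolean
algebra there is no `(1, ω)`-weakly universal function on the pairs of countable ordinals, and no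
`(1, 2)`-weakly universal one. -/
theorem result (hCH : (𝔠 : Cardinal.{0}) = ℵ₁) :
    IsSacksIteration W2 ∧ noSurj (BA W2) ℕ O1 = ⊤ ∧
      (⨆ U : Fun (BA W2) (Sym2 O1) ℕ, weaklyUniversal finToOne U) = ⊥ ∧
      (⨆ U : Fun (BA W2) (Sym2 O1) ℕ, weaklyUniversal inj U) = ⊥ :=
  ⟨isSacksIteration W2, noSurj_O1,
    iSup_eq_bot.2 fun U => weaklyUniversal_eq_bot hCH U,
    iSup_eq_bot.2 fun U => weaklyUniversal_inj_eq_bot hCH U⟩

end Pool.Agent.Results.MP_504954_lc.SacksModel
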