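import Mathlib

/-!
# The stick principle and weakly universal functions on pairs of countable ordinals

Under the stick principle and the failure of the continuum hypothesis there is no
`(1, ω)`-weakly universal function on the pairs of countable ordinals.
-/

namespace Pool.Agent.Results.MP_504954_lc.StickNotCH

open Cardinal Ordinal Set

/-- The set `ω₁` of all countable ordinals, as a type with its well-order. -/
abbrev Omega1 : Type := (ω₁ : Ordinal.{0}).ToType

/-- `U`, a function on the unordered pairs of countable ordinals, is `(1, κ)`-weakly universal: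
every such function `F` is `e ∘ U ∘ h` on the pairs of distinct ordinals, for an injection `h` of
`ω₁` and a map `e : ω → ω` all of whose fibres have fewer than `κ` elements. -/
def WeaklyUniversal (κ : Cardinal.{0}) (U : Sym2 Omega1 → ℕ) : Prop :=
  ∀ F : Sym2 Omega1 → ℕ, ∃ h : Omega1 → Omega1, Function.Injective h ∧
    ∃ e : ℕ → ℕ, (∀ n, #(e ⁻¹' {n}) < κ) ∧
      ∀ a b : Omega1, a ≠ b → F s(a, b) = e (U s(h a, h b))

/-- The stick principle: there is a family of at most `ℵ₁` countably infinite sets of countable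
ordinals such that every uncountable set of countable ordinals contains one of them. -/
def Stick : Prop :=
  ∃ 𝓗 : Set (Set Omega1), #𝓗 ≤ ℵ₁ ∧ (∀ H ∈ 𝓗, H.Countable ∧ H.Infinite) ∧
    ∀ A : Set Omega1, ¬ A.Countable → ∃ H ∈ 𝓗, H ⊆ A

lemma mk_Omega1 : #Omega1 = ℵ₁ := by
  rw [mk_toType, card_omega]

lemma not_countable_Omega1 : ¬ Countable Omega1 := by
  intro h
  have h1 : #Omega1 ≤ ℵ₀ := mk_le_aleph0
  rw [mk_Omega1] at h1
  exact absurd h1 (not_le.2 aleph0_lt_aleph_one)

lemma countable_Iic (a : Omega1) : (Set.Iic a).Countable := by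
  have h : #(Set.Iio a) < #Omega1 := by
    apply mk_Iio_lt
    rw [mk_Omega1, ord_aleph, type_toType]
  rw [mk_Omega1] at h
  have h2 : (Set.Iio a).Countable := by
    rw [← le_aleph0_iff_set_countable]
    rwa [← Order.lt_succ_iff, succ_aleph0]
  refine (h2.union (Set.countable_singleton a)).mono ?_
  intro x hx
  rcases (Set.mem_Iic.1 hx).lt_or_eq with h | h
  · exact Or.inl h
  · exact Or.inr h

/-- An uncountable set has an element above a given countable set. -/
lemma exists_above {S : Set Omega1} (hS : ¬ S.Countable) {D : Set Omega1} (hD : D.Countable) :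
    ∃ b ∈ S, ∀ a ∈ D, a < b := by
  by_contra hcon
  push Not at hcon
  apply hS
  refine (hD.biUnion (fun a _ => countable_Iic a)).mono ?_
  intro b hb
  obtain ⟨a, ha, hba⟩ := hcon b hb
  exact Set.mem_biUnion ha hba

/-- An infinite set can be mapped onto `ℕ`. -/
lemma exists_onto {D : Set Omega1} (hD : D.Infinite) :
    ∃ n : Omega1 → ℕ, ∀ m, ∃ a ∈ D, n a = m := by
  have : Infinite D := hD.to_subtype
  let f : ℕ ↪ D := Infinite.natEmbedding D
  have hf : Function.Injective (fun k => (f k : Omega1)) := fun i j h => f.injective (Subtype.ext h)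
  exact ⟨Function.invFun (fun k => (f k : Omega1)), fun m =>
    ⟨f m, (f m).2, Function.leftInverse_invFun hf m⟩⟩

/-- If the stick principle holds and the continuum hypothesis fails, then there is no
`(1, ω)`-weakly universal function on the pairs of countable ordinals. -/
theorem result (hstick : Stick) (hCH : (ℵ₁ : Cardinal.{0}) < 𝔠) :
    ¬ ∃ U : Sym2 Omega1 → ℕ, WeaklyUniversal ℵ₀ U := by
  classical
  rintro ⟨U, hU⟩
  obtain ⟨𝓗, h𝓗card, h𝓗inf, h𝓗⟩ := hstick
  have h0 : ℵ₀ ≤ (ℵ₁ : Cardinal.{0}) := aleph0_le_aleph 1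
  -- a bijection of `ω₁` with its square
  obtain ⟨ψ⟩ : Nonempty (Omega1 ≃ Omega1 × Omega1) := by
    rw [← Cardinal.eq, mk_prod, Cardinal.lift_id, mk_Omega1, mul_eq_self h0]
  -- enumerate the family
  have hne : 𝓗.Nonempty := by
    obtain ⟨H, hH, _⟩ := h𝓗 Set.univ (by
      rw [Set.countable_univ_iff]; exact not_countable_Omega1)
    exact ⟨H, hH⟩
  obtain ⟨H, hH⟩ : ∃ H : Omega1 → Set Omega1, Set.range H = 𝓗 := by
    have : Nonempty 𝓗 := hne.to_subtype
    have hle : #𝓗 ≤ #Omega1 := by rw [mk_Omega1]; exact h𝓗card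
    obtain ⟨g⟩ := hle
    have hs := Function.invFun_surjective g.injective
    refine ⟨fun w => (Function.invFun g w : 𝓗), ?_⟩
    ext A
    constructor
    · rintro ⟨w, rfl⟩
      exact Subtype.coe_prop _
    · intro hA
      obtain ⟨w, hw⟩ := hs ⟨A, hA⟩
      exact ⟨w, congrArg Subtype.val hw⟩
  have hHc : ∀ i, (H i).Countable ∧ (H i).Infinite := fun i => h𝓗inf _ (hH ▸ ⟨i, rfl⟩)
  -- the domains
  let D : Omega1 → Set Omega1 := fun i => (fun t => (ψ t).1) '' H i
  have hDc : ∀ i, (D i).Countable := fun i => (hHc i).1.image _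
  have hon : ∀ i, ∃ n : Omega1 → ℕ, (D i).Infinite → ∀ m, ∃ a ∈ D i, n a = m := by
    intro i
    by_cases h : (D i).Infinite
    · obtain ⟨n, hn⟩ := exists_onto h
      exact ⟨n, fun _ => hn⟩
    · exact ⟨fun _ => 0, fun h' => absurd h' h⟩
  choose n hn using hon
  -- the points `β i`
  have hβ : ∀ i, ∃ b : Omega1, (ψ b).1 = i ∧ ∀ a ∈ D i, a < b := by
    intro i
    have hunc : ¬ {b : Omega1 | (ψ b).1 = i}.Countable := by
      intro hc
      apply not_countable_Omega1
      have h1 : Function.Injective (fun w : Omega1 =>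
          (⟨ψ.symm (i, w), by simp⟩ : {b : Omega1 | (ψ b).1 = i})) := by
        intro w w' hw
        have := congrArg Subtype.val hw
        simp only [EmbeddingLike.apply_eq_iff_eq, Prod.mk.injEq, true_and] at this
        exact this
      have := hc.to_subtype
      exact h1.countable
    obtain ⟨b, hb, hb'⟩ := exists_above hunc (hDc i)
    exact ⟨b, hb, hb'⟩
  choose β hβ1 hβ2 using hβ
  -- the functions `F x`
  let F : (ℕ → Bool) → Sym2 Omega1 → ℕ := fun x => Sym2.lift
    ⟨fun a b => (x (n (ψ (max a b)).1 (min a b))).toNat, fun a b => by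
      show (x (n (ψ (max a b)).1 (min a b))).toNat = (x (n (ψ (max b a)).1 (min b a))).toNat
      rw [max_comm, min_comm]⟩
  have hF : ∀ x a b, F x s(a, b) = (x (n (ψ (max a b)).1 (min a b))).toNat := fun x a b => rfl
  -- the code of `x`
  have hcode : ∀ x : ℕ → Bool, ∃ c : Omega1 × Omega1 × Finset ℕ,
      (D c.1).Infinite ∧ ∀ t ∈ H c.1, (x (n c.1 (ψ t).1) = true ↔
        U s((ψ t).2, c.2.1) ∈ c.2.2) := by
    intro x
    obtain ⟨h, _, e, he, hUF⟩ := hU (F x)
    -- the graph of `h` is uncountable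
    have hA : ¬ {t : Omega1 | (ψ t).2 = h (ψ t).1}.Countable := by
      intro hc
      apply not_countable_Omega1
      have h1 : Function.Injective (fun w : Omega1 =>
          (⟨ψ.symm (w, h w), by simp⟩ : {t : Omega1 | (ψ t).2 = h (ψ t).1})) := by
        intro w w' hw
        have := congrArg Subtype.val hw
        simp only [EmbeddingLike.apply_eq_iff_eq, Prod.mk.injEq] at this
        exact this.1
      have := hc.to_subtype
      exact h1.countable
    obtain ⟨A, hA𝓗, hAsub⟩ := h𝓗 _ hA
    rw [← hH] at hA𝓗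
    obtain ⟨i, rfl⟩ := hA𝓗
    have hfin : (e ⁻¹' {1}).Finite := lt_aleph0_iff_set_finite.1 (he 1)
    refine ⟨(i, h (β i), hfin.toFinset), ?_, ?_⟩
    · refine (hHc i).2.image ?_
      intro t ht t' ht' heq
      apply ψ.injective
      have h1 : (ψ t).2 = h (ψ t).1 := hAsub ht
      have h2 : (ψ t').2 = h (ψ t').1 := hAsub ht'
      refine Prod.ext heq ?_
      rw [h1, h2]
      exact congrArg h heq
    · intro t ht
      have h1 : (ψ t).2 = h (ψ t).1 := hAsub ht
      have hlt : (ψ t).1 < β i := hβ2 i _ ⟨t, ht, rfl⟩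
      have h2 := hUF (ψ t).1 (β i) hlt.ne
      rw [hF, max_eq_right hlt.le, min_eq_left hlt.le, hβ1, ← h1] at h2
      simp only [Set.Finite.mem_toFinset, Set.mem_preimage, Set.mem_singleton_iff]
      rw [← h2]
      cases x (n i (ψ t).1) <;> simp
  choose code hcode1 hcode2 using hcode
  have hinj : Function.Injective code := by
    intro x y hxy
    funext m
    obtain ⟨a, ⟨t, ht, rfl⟩, hm⟩ := hn (code x).1 (hcode1 x) m
    have h1 := hcode2 x t ht
    have h2 := hcode2 y t (by rw [← hxy]; exact ht)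
    rw [← hxy] at h2
    have h3 := h1.trans h2.symm
    simp only at hm
    rw [hm] at h3
    exact Bool.eq_iff_iff.2 h3
  have hle := mk_le_of_injective hinj
  rw [← power_def, mk_bool, mk_nat, two_power_aleph0] at hle
  refine absurd (hle.trans ?_) (not_le.2 hCH)
  have hfs : #(Finset ℕ) ≤ ℵ₁ := mk_le_aleph0.trans h0
  simp only [mk_prod, Cardinal.lift_id, mk_Omega1]
  calc ℵ₁ * (ℵ₁ * #(Finset ℕ)) ≤ ℵ₁ * (ℵ₁ * ℵ₁) := by gcongr
    _ = ℵ₁ := by rw [mul_eq_self h0, mul_eq_self h0]

end Pool.Agent.Results.MP_504954_lc.StickNotCH
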